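import Pool.Agent.Lib.MP_432bca_pr.Core
open MeasureTheory ProbabilityTheory Filter Topology
open Pool.Agent.Lib.MP_432bca_pr

namespace Pool.Agent.Results.MP_432bca_pr.NonSingular

/-- **Non-singularity of the root-evaluation matrix.**  For all independent integer-valued
`X_1, …, X_N` (`N = n + 1 ≥ 1`) with least support points `m_j ≤ 0`, `m_1 + ⋯ + m_N < 0` and
`E S_N < 0`: every zero of `G_{S_N} - 1` in `{|s| ≤ 1} \ {0, 1}` has a well-defined finite
multiplicity `≥ 1`; the matrix `𝐀` is square; and, however its rows are put in bijection with its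
columns, its determinant is nonzero. -/
theorem result {Ω : Type*} [MeasurableSpace Ω] (P : Measure Ω) [IsProbabilityMeasure P]
    (n : ℕ) (X : Fin (n + 1) → Ω → ℤ) (hX : ∀ j, Measurable (X j)) (hind : iIndepFun X P)
    (m : Fin (n + 1) → ℤ) (hm1 : ∀ j, P {ω | X j ω = m j} ≠ 0)
    (hm2 : ∀ j, P {ω | X j ω < m j} = 0) (hm0 : ∀ j, m j ≤ 0) (hD : ∑ j, m j < 0)
    (hE : ∫ ω, ((total X ω : ℤ) : ℝ) ∂P < 0) :
    (∀ α ∈ zeroSet P X, 1 ≤ mult P X α ∧
      HasOrder (fun s => genFun P (total X) s - 1) α (mult P X α)) ∧
    Nonempty (Col m ≃ Row P X) ∧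
    ∀ e : Col m ≃ Row P X, ((matA P X m).submatrix e id).det ≠ 0 := by
  classical
  have hm : ∀ j, ∀ᵐ ω ∂P, m j ≤ X j ω := by
    intro j
    rw [ae_iff]
    have : {ω | ¬ m j ≤ X j ω} = {ω | X j ω < m j} := by
      ext ω; simp
    rw [this]
    exact hm2 j
  have haall : ∀ᵐ ω ∂P, ∀ j, m j ≤ X j ω := ae_all_iff.mpr hm
  set d : ℕ := (-(∑ j, m j)).toNat with hd
  have hdZ : (d : ℤ) = -(∑ j, m j) := by omega
  have hd0 : 0 < d := by omega
  have hS : Measurable (total X) := Finset.measurable_sum _ (fun i _ => hX i)
  have hSd : ∀ᵐ ω ∂P, -(d:ℤ) ≤ total X ω := by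
    filter_upwards [haall] with ω hω
    rw [hdZ, neg_neg]
    exact Finset.sum_le_sum (fun i _ => hω i)
  have hint : Integrable (fun ω => ((total X ω : ℤ) : ℝ)) P := by
    by_contra hcon
    rw [integral_undef hcon] at hE
    exact lt_irrefl _ hE
  have hintX : ∀ j, Integrable (fun ω => (X j ω : ℝ)) P := by
    intro j
    have h1 : Integrable (fun ω => ((total X ω : ℤ) : ℝ) + d + |(m j : ℝ)|) P :=
      (hint.add (integrable_const _)).add (integrable_const _)
    refine Integrable.mono' h1 ?_ ?_
    · exact (measurable_comp_int (fun k : ℤ => (k : ℝ)) (hX j)).aestronglyMeasurable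
    · filter_upwards [haall] with ω hω
      have h2 : X j ω - m j ≤ ∑ i, (X i ω - m i) :=
        Finset.single_le_sum (f := fun i => X i ω - m i) (fun i _ => by have := hω i; linarith)
          (Finset.mem_univ j)
      rw [Finset.sum_sub_distrib] at h2
      have h3 : (X j ω : ℝ) - m j ≤ ((total X ω : ℤ) : ℝ) + d := by
        have h4 : X j ω - m j ≤ total X ω + d := by
          rw [hdZ]; unfold total; linarith
        exact_mod_cast h4
      have h5 : (m j : ℝ) ≤ X j ω := by exact_mod_cast hω j
      rw [Real.norm_eq_abs, abs_le]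
      constructor
      · have := neg_abs_le (m j : ℝ)
        have h6 : (0:ℝ) ≤ ((total X ω : ℤ) : ℝ) + d := by linarith
        linarith
      · have := le_abs_self (m j : ℝ)
        linarith
  have hdrift : ∑ j, ∫ ω, (X j ω : ℝ) ∂P < 0 := by
    rw [← integral_finsetSum _ (fun i _ => hintX i)]
    refine lt_of_eq_of_lt ?_ hE
    apply integral_congr_ae
    refine Eventually.of_forall (fun ω => ?_)
    simp [total]
  have hmin : P {ω | total X ω = -(d:ℤ)} ≠ 0 := by
    have h1 := hind.measure_inter_preimage_eq_mul Finset.univ (sets := fun j => {m j})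
      (fun j _ => measurableSet_singleton _)
    have h2 : ∏ j, P (X j ⁻¹' {m j}) ≠ 0 := by
      rw [Finset.prod_ne_zero_iff]
      intro j _
      exact hm1 j
    rw [← h1] at h2
    intro h3
    apply h2
    rw [← nonpos_iff_eq_zero, ← h3]
    apply measure_mono
    intro ω hω
    simp only [Finset.mem_univ, Set.iInter_true, Set.mem_iInter, Set.mem_preimage,
      Set.mem_singleton_iff] at hω
    show total X ω = -(d:ℤ)
    rw [hdZ, neg_neg]
    exact Finset.sum_congr rfl (fun j _ => hω j)
  obtain ⟨Q, hQ, hdeg, hchar⟩ := exists_poly P (total X) hS d hSd hint hE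
  -- zeros
  have hone : Q.IsRoot 1 := by
    rw [isRoot_iff P (total X) hS d hSd hQ hdeg hchar (by simp) (by simp),
      genFun_eq_integral P hS d hSd (by simp) (by simp)]
    simp
  have hZ : ∀ α : ℂ, α ∈ zeroSet P X ↔ α ≠ 1 ∧ Q.IsRoot α := by
    intro α
    constructor
    · rintro ⟨h1, h2, h3, h4⟩
      refine ⟨h3, ?_⟩
      rw [isRoot_iff P (total X) hS d hSd hQ hdeg hchar (norm_pos_iff.mpr h2) h1]
      exact sub_eq_zero.mp h4
    · rintro ⟨h1, h2⟩
      obtain ⟨h3, h4⟩ := root_norm P (total X) hS d hSd hdeg hchar hmin hd0 h2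
      refine ⟨h4, norm_pos_iff.mp h3, h1, ?_⟩
      rw [isRoot_iff P (total X) hS d hSd hQ hdeg hchar h3 h4] at h2
      rw [h2, sub_self]
  have hord : ∀ α ∈ zeroSet P X,
      HasOrder (fun s => genFun P (total X) s - 1) α (Q.rootMultiplicity α) := by
    intro α hα
    obtain ⟨h1, h2⟩ := (hZ α).mp hα
    obtain ⟨h3, h4⟩ := root_norm P (total X) hS d hSd hdeg hchar hmin hd0 h2
    rcases h4.lt_or_eq with h5 | h5
    · apply hasOrder_of_analytic
      · exact (analyticAt_genFun P hS d hSd h3 h5).sub analyticAt_const
      · exact order_eq P (total X) hS d hSd hQ hdeg hchar h3 h5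
    · rw [rootMultiplicity_boundary P (total X) hS d hSd hQ hdeg hchar h5 h2]
      apply hasOrder_boundary P (total X) hS d hSd hint hE h5
      rwa [isRoot_iff P (total X) hS d hSd hQ hdeg hchar h3 h4] at h2
  have hmult : ∀ α ∈ zeroSet P X, mult P X α = Q.rootMultiplicity α := by
    intro α hα
    have h1 := hord α hα
    have h2 : {k : ℕ | HasOrder (fun s => genFun P (total X) s - 1) α k} = {Q.rootMultiplicity α} := by
      ext k
      constructor
      · intro hk
        exact HasOrder.unique hα.1 hk h1
      · rintro rfl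
        exact h1
    unfold mult
    rw [h2]
    exact csInf_singleton _
  have hpos : ∀ α ∈ zeroSet P X, 1 ≤ mult P X α := by
    intro α hα
    rw [hmult α hα]
    exact (Polynomial.rootMultiplicity_pos hQ.ne_zero).mpr ((hZ α).mp hα).2
  refine ⟨fun α hα => ⟨hpos α hα, by rw [hmult α hα]; exact hord α hα⟩, ?_, ?_⟩
  · -- counting
    have hfin : zeroSet P X = ((Q.roots.toFinset.erase 1 : Finset ℂ) : Set ℂ) := by
      ext α
      rw [hZ]
      simp [hQ.ne_zero, and_comm]
    have hft : Fintype (zeroSet P X) := by
      rw [hfin]; infer_instance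
    have hcol : Fintype.card (Col m) = d := by
      rw [Fintype.card_sigma]
      simp only [Fintype.card_fin]
      have : ((∑ j, (-(m j)).toNat : ℕ) : ℤ) = (d : ℤ) := by
        rw [hdZ, ← Finset.sum_neg_distrib]
        push_cast
        apply Finset.sum_congr rfl
        intro j _
        have := hm0 j
        omega
      exact_mod_cast this
    have hrow : Fintype.card (Row P X) = d := by
      rw [Fintype.card_sum, Fintype.card_sigma, Fintype.card_unit]
      simp only [Fintype.card_fin]
      have h1 : ∑ α : zeroSet P X, mult P X α = ∑ α ∈ Q.roots.toFinset.erase 1, Q.rootMultiplicity α := by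
        have h2 : ∑ α : zeroSet P X, mult P X α = ∑ α : zeroSet P X, Q.rootMultiplicity (α : ℂ) :=
          Finset.sum_congr rfl (fun α _ => hmult α α.2)
        rw [h2]
        rw [← Finset.sum_coe_sort (Q.roots.toFinset.erase 1) (fun α => Q.rootMultiplicity α)]
        exact Fintype.sum_equiv (Equiv.setCongr hfin) _ _ (fun α => rfl)
      rw [h1]
      have h3 : Q.rootMultiplicity 1 = 1 :=
        rootMultiplicity_boundary P (total X) hS d hSd hQ hdeg hchar (by simp) hone
      have h4 : (1:ℂ) ∈ Q.roots.toFinset := by
        rw [Multiset.mem_toFinset, Polynomial.mem_roots hQ.ne_zero]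
        exact hone
      have h5 := Finset.sum_erase_add Q.roots.toFinset (fun α => Q.rootMultiplicity α) h4
      simp only [h3] at h5
      rw [h5]
      have h6 : ∑ α ∈ Q.roots.toFinset, Q.rootMultiplicity α = Multiset.card Q.roots := by
        rw [← Multiset.toFinset_sum_count_eq]
        apply Finset.sum_congr rfl
        intro α _
        rw [Polynomial.count_roots]
      rw [h6, IsAlgClosed.card_roots_eq_natDegree, hdeg]
    exact ⟨Fintype.equivOfCardEq (hcol.trans hrow.symm)⟩
  · intro e hdet
    obtain ⟨v, hv0, hv⟩ := Matrix.exists_vecMul_eq_zero_iff.mpr hdet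
    -- index data, indexed by the columns through `e`
    set a : Col m → ℂ := fun q => match e q with
      | Sum.inl ⟨α, _⟩ => (α : ℂ)
      | Sum.inr _ => 1 with ha
    set τ : Col m → ℕ := fun q => match e q with
      | Sum.inl ⟨_, t⟩ => (t : ℕ)
      | Sum.inr _ => 0 with hτ
    have hroot : ∀ q, Q.IsRoot (a q) := by
      intro q
      simp only [ha]
      rcases e q with ⟨α, t⟩ | _
      · exact ((hZ α).mp α.2).2
      · exact hone
    have hnorm : ∀ q, 0 < ‖a q‖ ∧ ‖a q‖ ≤ 1 := fun q =>
      root_norm P (total X) hS d hSd hdeg hchar hmin hd0 (hroot q)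
    have hτlt : ∀ q, τ q < Q.rootMultiplicity (a q) := by
      intro q
      simp only [ha, hτ]
      rcases e q with ⟨α, t⟩ | _
      · have := t.2
        rw [← hmult α α.2]
        exact this
      · exact (Polynomial.rootMultiplicity_pos hQ.ne_zero).mpr hone
    have haτ : ∀ q, ‖a q‖ < 1 ∨ τ q = 0 := by
      intro q
      rcases (hnorm q).2.lt_or_eq with h | h
      · left; exact h
      · right
        have h1 := hτlt q
        rw [rootMultiplicity_boundary P (total X) hS d hSd hQ hdeg hchar h (hroot q)] at h1
        omega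
    have hinj : ∀ q q', a q = a q' → τ q = τ q' → q = q' := by
      intro q q' h1 h2
      apply e.injective
      simp only [ha, hτ] at h1 h2
      rcases h3 : e q with ⟨α, t⟩ | x <;> rcases h4 : e q' with ⟨α', t'⟩ | x'
      · rw [h3, h4] at h1 h2
        simp only at h1 h2
        have h5 : α = α' := Subtype.ext h1
        subst h5
        have h6 : t = t' := Fin.ext h2
        rw [h6]
      · rw [h3, h4] at h1
        exact absurd h1 ((hZ α).mp α.2).1
      · rw [h3, h4] at h1
        exact absurd h1.symm ((hZ α').mp α'.2).1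
      · rfl
    have hErec : ∀ q, ∀ k : ℤ, ∫ ω, E (a q) (τ q) (k + total X ω) ∂P = E (a q) (τ q) k := by
      intro q k
      rcases haτ q with h | h
      · apply E_rec_of_order P hS d hSd (hnorm q).1 h (Q.rootMultiplicity (a q)) _ _ (hτlt q)
        rw [order_eq P (total X) hS d hSd hQ hdeg hchar (hnorm q).1 h]
      · rw [h, integral_E' P hS d hSd (hnorm q).1 (hnorm q).2 0 (Or.inr rfl), iteratedDeriv_zero]
        have h1 := hroot q
        rw [isRoot_iff P (total X) hS d hSd hQ hdeg hchar (hnorm q).1 (hnorm q).2] at h1
        rw [h1, mul_one, E_zero]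
    have hentry : ∀ q j c, matA P X m (e q) ⟨j, c⟩ = iteratedDeriv (τ q) (phi P X m j (c : ℕ)) (a q) := by
      intro q j c
      simp only [matA, ha, hτ]
      rcases e q with ⟨α, t⟩ | _
      · rfl
      · simp only [iteratedDeriv_zero]
        unfold phi nu
        have h1 : weight P X m j 1 = 1 := by
          rw [weight_eq, one_zpow, one_mul]
          have h2 : genFun P (headSum X j) 1 = 1 := by
            unfold genFun
            simp only [one_zpow, one_mul]
            rw [← Complex.ofReal_tsum]
            have h3 : ∑' k : ℤ, P.real {ω | headSum X j ω = k} = 1 := by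
              have hmeas := measurable_headSum hX j
              have h4 : Integrable (fun _ : ℤ => (1:ℝ)) (P.map (headSum X j)) := by
                have := Measure.isProbabilityMeasure_map (μ := P) hmeas.aemeasurable
                exact integrable_const _
              have h5 := integral_countable h4
              have := Measure.isProbabilityMeasure_map (μ := P) hmeas.aemeasurable
              simp only [integral_const, probReal_univ, smul_eq_mul, mul_one] at h5
              rw [h5]
              apply tsum_congr
              intro k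
              exact (map_real_singleton P hmeas k).symm
            rw [h3]; simp
          exact h2
        rw [h1, one_mul]
        push_cast
        apply Finset.sum_congr rfl
        intro r _
        rw [one_pow, one_mul]
    have hu : ∀ j, ∀ c < (-(m j)).toNat,
        ∑ q, v q * iteratedDeriv (τ q) (phi P X m j c) (a q) = 0 := by
      intro j c hc
      have h1 := congrFun hv (⟨j, ⟨c, hc⟩⟩ : Col m)
      simp only [Matrix.vecMul, dotProduct, Matrix.submatrix_apply, id, Pi.zero_apply] at h1
      rw [← h1]
      apply Finset.sum_congr rfl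
      intro q _
      rw [hentry q j ⟨c, hc⟩]
    have hlam := lambda_zero P n X hX hind m hm1 hm hm0 hintX hdrift a τ (fun q => (hnorm q).1)
      (fun q => (hnorm q).2) haτ hErec v hu
    have hzero := indep_E Q hQ.ne_zero a τ hinj (fun q => norm_pos_iff.mp (hnorm q).1) hτlt v hlam
    exact hv0 (funext hzero)

end Pool.Agent.Results.MP_432bca_pr.NonSingular
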